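import Pool.Agent.helper24.TG.S3
import Pool.Agent.helper41.TGE.Num

set_option linter.all false
set_option autoImplicit false

/-!
# RG2: the rough structure (MP_ce98d8_co)
-/

namespace Pool.Agent.helper24.TG

open Finset Classical
open Pool.Agent.helper11.Tight (nb eo mem_nb)
open Pool.Agent.helper41.TGE

/-! ### numbers -/

theorem RG2_q_ge (p : Par) : (p.c * p.B) ^ 200 ≤ p.q := by
  have h1 := p.N2
  have h2 := p.N3'
  have hd := d_pos p
  have hL := p.hL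
  set X := (p.c * p.B) ^ 100 with hX
  have h3 : X * X * p.d ≤ p.q * p.d := by
    calc X * X * p.d = X * (X * p.d) := by ring
      _ ≤ X * p.N := Nat.mul_le_mul_left _ h2
      _ = X * 1 * 1 * p.N := by ring
      _ ≤ X * p.L * (p.K + 1) * p.N := by gcongr; omega
      _ ≤ p.q * p.d := h1
  have h4 : (p.c * p.B) ^ 200 = X * X := by rw [hX]; ring
  rw [h4]
  exact Nat.le_of_mul_le_mul_right h3 hd

theorem RG2_C_le (p : Par) : p.C ≤ 2 ^ p.Lam := by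
  refine le_trans ?_ p.s1
  have h1 := B_pos p
  have h2 := q_pos p
  exact Nat.le_mul_of_pos_left _ (by positivity)

theorem RG2_Y1 (p : Par) : p.c ^ 2 * p.B ^ 2 * p.q ≤ p.q ^ 2 := by
  have h1 : (p.c * p.B) ^ 2 ≤ p.q :=
    le_trans (Nat.pow_le_pow_right (Nat.mul_pos (c_pos p) (B_pos p)) (by norm_num)) (RG2_q_ge p)
  calc p.c ^ 2 * p.B ^ 2 * p.q = (p.c * p.B) ^ 2 * p.q := by ring
    _ ≤ p.q * p.q := Nat.mul_le_mul_right _ h1
    _ = _ := by ring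

theorem RG2_Y1' (p : Par) : p.B * p.q ≤ p.c ^ p.x1 * (p.c ^ 2 * p.B ^ 2 * p.q) := by
  have h1 := c_pos p
  have h2 := B_pos p
  calc p.B * p.q = 1 * (1 * (p.B * 1) * p.q) := by ring
    _ ≤ p.c ^ p.x1 * (p.c ^ 2 * (p.B * p.B) * p.q) := by
      gcongr
      · exact Nat.one_le_pow _ _ h1
      · exact Nat.one_le_pow _ _ h1
      · exact h2
    _ = _ := by ring

/-- `X = Lam^2 B q` and the square of `c` -/
theorem RG2_sq (p : Par) : 10 ^ 12 * (p.Lam ^ 2 * (p.B * p.q)) ≤ p.c ^ 2 * p.B * p.q := by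
  have h1 := p.hLog
  calc 10 ^ 12 * (p.Lam ^ 2 * (p.B * p.q)) = (10 ^ 6 * p.Lam) ^ 2 * (p.B * p.q) := by ring
    _ ≤ p.c ^ 2 * (p.B * p.q) := Nat.mul_le_mul_right _ (Nat.pow_le_pow_left h1 2)
    _ = _ := by ring

theorem RG2_Lam_le (p : Par) : p.Lam ≤ p.Lam ^ 2 * (p.B * p.q) := by
  have h1 := B_pos p
  have h2 := q_pos p
  have h3 := p.hLam
  calc p.Lam = p.Lam * 1 * (1 * 1) := by ring
    _ ≤ p.Lam * p.Lam * (p.B * p.q) := by gcongr <;> omega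
    _ = _ := by ring

theorem RG2_k1 (p : Par) : 6 * p.Lam * p.fH + 6 * p.Lam ≤ p.c ^ 2 * p.B * p.q / 16 := by
  have h1 := RG2_sq p
  have h2 := RG2_Lam_le p
  have h3 := p.hLam
  rw [Nat.le_div_iff_mul_le (by norm_num)]
  refine le_trans ?_ h1
  have e : (6 * p.Lam * p.fH + 6 * p.Lam) * 16 =
      9600000 * (p.Lam ^ 2 * (p.B * p.q)) + 192 * p.Lam := by
    unfold Par.fH; ring
  rw [e]
  omega

theorem RG2_k2 (p : Par) : p.Lam * (p.B * p.c ^ (p.x1 + 2)) + (6 * p.Lam * p.fH + 5 * p.Lam) ≤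
    (p.B * p.q / p.c ^ p.x1 + 1) / (16 * p.B) * (p.B * p.c ^ (p.x1 + 2)) := by
  have hc := c_pos p
  have hB := B_pos p
  have hcx : 0 < p.c ^ p.x1 := pow_pos hc _
  set m1 := p.B * p.q / p.c ^ p.x1 + 1 with hm1
  set k2 := m1 / (16 * p.B) with hk2
  have h1 : p.B * p.q < p.c ^ p.x1 * m1 := Nat.lt_mul_div_succ _ hcx
  have h2 : m1 < 16 * p.B * (k2 + 1) := Nat.lt_mul_div_succ _ (by positivity)
  have h3 : p.B * p.q < p.B * (16 * p.c ^ p.x1 * (k2 + 1)) := by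
    calc p.B * p.q < p.c ^ p.x1 * m1 := h1
      _ ≤ p.c ^ p.x1 * (16 * p.B * (k2 + 1)) := Nat.mul_le_mul_left _ h2.le
      _ = _ := by ring
  have h4 : p.q < 16 * p.c ^ p.x1 * (k2 + 1) := Nat.lt_of_mul_lt_mul_left h3
  have h5 : p.c ^ 2 * p.B * p.q ≤ 16 * (k2 + 1) * (p.B * p.c ^ (p.x1 + 2)) := by
    calc p.c ^ 2 * p.B * p.q ≤ p.c ^ 2 * p.B * (16 * p.c ^ p.x1 * (k2 + 1)) :=
          Nat.mul_le_mul_left _ h4.le
      _ = _ := by ring
  have h6 : 32 * ((p.Lam + 1) * (p.B * p.c ^ (p.x1 + 2))) ≤ p.c ^ 2 * p.B * p.q := by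
    have h7 : p.c ^ (p.kT + 12) ≤ p.q := q_ge p
    have h8 : 32 * (p.Lam + 1) ≤ p.c ^ 7 := by
      have h9 := p.hLog
      have h10 := p.hLam
      calc 32 * (p.Lam + 1) ≤ 10 ^ 6 * p.Lam := by omega
        _ ≤ p.c := h9
        _ ≤ p.c ^ 7 := Nat.le_self_pow (by norm_num) _
    calc 32 * ((p.Lam + 1) * (p.B * p.c ^ (p.x1 + 2)))
        = 32 * (p.Lam + 1) * (p.B * p.c ^ (p.x1 + 2)) := by ring
      _ ≤ p.c ^ 7 * (p.B * p.c ^ (p.x1 + 2)) := Nat.mul_le_mul_right _ h8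
      _ = p.c ^ 2 * p.B * p.c ^ (p.kT + 12) := by unfold Par.x1; ring
      _ ≤ p.c ^ 2 * p.B * p.q := Nat.mul_le_mul_left _ h7
  have h11 := RG2_sq p
  have h12 := RG2_Lam_le p
  have e : 16 * (6 * p.Lam * p.fH + 5 * p.Lam) =
      9600000 * (p.Lam ^ 2 * (p.B * p.q)) + 176 * p.Lam := by
    unfold Par.fH; ring
  have e2 : (p.Lam + 1) * (p.B * p.c ^ (p.x1 + 2)) =
      p.Lam * (p.B * p.c ^ (p.x1 + 2)) + p.B * p.c ^ (p.x1 + 2) := by ring
  have e3 : 16 * (k2 + 1) * (p.B * p.c ^ (p.x1 + 2)) =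
      16 * (k2 * (p.B * p.c ^ (p.x1 + 2))) + 16 * (p.B * p.c ^ (p.x1 + 2)) := by ring
  rw [e2] at h6
  rw [e3] at h5
  generalize k2 * (p.B * p.c ^ (p.x1 + 2)) = A1 at *
  generalize p.Lam * (p.B * p.c ^ (p.x1 + 2)) = A2 at *
  generalize p.B * p.c ^ (p.x1 + 2) = A3 at *
  generalize p.c ^ 2 * p.B * p.q = A4 at *
  generalize p.Lam ^ 2 * (p.B * p.q) = A5 at *
  omega

theorem RG2_m1 (p : Par) : p.B * p.q / p.c ^ p.x1 + 1 ≤ p.q ^ 2 := by
  have h1 : p.B * p.q / p.c ^ p.x1 ≤ p.B * p.q := Nat.div_le_self _ _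
  have h2 : (p.c * p.B) ^ 200 ≤ p.q := RG2_q_ge p
  have hc := c_pos p
  have hB := B_pos p
  have hq := q_pos p
  have h3 : p.c * p.B ≤ p.q := le_trans (Nat.le_self_pow (by norm_num) _) h2
  have h4 : p.B + 1 ≤ p.q := by
    have : p.B + 1 ≤ p.c * p.B := by
      have := c_ge p
      nlinarith
    omega
  calc p.B * p.q / p.c ^ p.x1 + 1 ≤ p.B * p.q + p.q := by omega
    _ = (p.B + 1) * p.q := by ring
    _ ≤ p.q * p.q := Nat.mul_le_mul_right _ h4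
    _ = _ := by ring

/-- the final computation -/
theorem RG2_fin (p : Par) : p.c ^ p.x0 * (p.C * (p.B * p.q / p.c ^ p.x1 + 1) +
    p.B * p.c ^ (p.x1 + 2) * (p.c ^ 2 * p.B ^ 2 * p.q)) ≤ p.k := by
  have hc := rc0 p
  have hc6 := rc p
  have hB := rB p
  have hq := rq p
  have hC := rC p
  set D : ℝ := (p.w : ℝ) * p.d with hD
  have hD0 : 0 < D := mul_pos (rw' p) (rd p)
  have hk : ((p.B : ℝ) - 1) * D ≤ p.k := by
    rw [k_cast]
    have h1 : (1 : ℝ) ≤ p.C := by exact_mod_cast C_pos p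
    have h2 : 0 ≤ (p.q : ℝ) * (p.C - 1) := mul_nonneg hq.le (by linarith)
    linarith
  have hqC := qC_le p
  have hm1 : ((p.B * p.q / p.c ^ p.x1 : ℕ) : ℝ) ≤ p.B * p.q / (p.c : ℝ) ^ p.x1 := by
    refine le_trans Nat.cast_div_le ?_
    push_cast
    exact le_rfl
  have hx : p.x1 = p.x0 + 4 := rfl
  have t1 : (p.c : ℝ) ^ p.x0 * (p.C * (p.B * p.q / (p.c : ℝ) ^ p.x1)) ≤ 2 * p.B * D / p.c := by
    rw [hx, pow_add]
    have e : (p.c : ℝ) ^ p.x0 * (p.C * (p.B * p.q / ((p.c : ℝ) ^ p.x0 * p.c ^ 4))) =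
        p.B * (p.q * p.C) / p.c ^ 4 := by
      field_simp
    rw [e, div_le_div_iff₀ (by positivity) hc]
    calc p.B * ((p.q : ℝ) * p.C) * p.c ≤ p.B * (2 * p.c ^ 3 * D) * p.c := by gcongr
      _ = 2 * p.B * D * p.c ^ 4 := by ring
  have t2 : (p.c : ℝ) ^ p.x0 * (p.C * 1) ≤ D := by
    have h1 : (p.c : ℝ) ^ (p.kT + 12) ≤ p.q := by exact_mod_cast q_ge p
    have h2 : (p.c : ℝ) ^ p.x0 * (p.C * 1) * p.q ≤ D * p.q := by
      calc (p.c : ℝ) ^ p.x0 * (p.C * 1) * p.q = p.c ^ p.x0 * (p.q * p.C) := by ring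
        _ ≤ p.c ^ p.x0 * (2 * p.c ^ 3 * D) := by gcongr
        _ = 2 * p.c ^ (p.kT + 4) * D := by unfold Par.x0; ring
        _ ≤ p.c ^ 8 * p.c ^ (p.kT + 4) * D := by
            have : (2 : ℝ) ≤ p.c ^ 8 := by
              calc (2 : ℝ) ≤ p.c := by linarith
                _ ≤ p.c ^ 8 := le_self_pow₀ (rc1 p) (by norm_num)
            gcongr
        _ = D * p.c ^ (p.kT + 12) := by ring
        _ ≤ D * p.q := by gcongr
    exact le_of_mul_le_mul_right h2 hq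
  have t3 : (p.c : ℝ) ^ p.x0 * (p.B * p.c ^ (p.x1 + 2) * (p.c ^ 2 * p.B ^ 2 * p.q)) ≤ D := by
    have h1 : (p.c : ℝ) ^ (p.kT + 15) ≤ p.B := by exact_mod_cast p.N7'
    have h2 : (p.c : ℝ) ^ (p.kT + 5) ≤ p.B :=
      le_trans (pow_le_pow_right₀ (rc1 p) (by omega)) h1
    have h3 := rho_ge p
    have h4 : (p.B : ℝ) ^ 5 ≤ p.rho := by
      have hK := rK p
      have hBone : (1 : ℝ) ≤ p.B := by exact_mod_cast B_pos p
      have hcB : (p.B : ℝ) ≤ p.c * p.B := le_mul_of_one_le_left hB.le (rc1 p)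
      calc (p.B : ℝ) ^ 5 ≤ ((p.c : ℝ) * p.B) ^ 5 := by gcongr
        _ ≤ ((p.c : ℝ) * p.B) ^ 100 := pow_le_pow_right₀ (le_trans hBone hcB) (by norm_num)
        _ ≤ ((p.c : ℝ) * p.B) ^ 100 * ((p.K : ℝ) + 1) :=
            le_mul_of_one_le_right (by positivity) (by linarith)
        _ ≤ p.rho := h3
    calc (p.c : ℝ) ^ p.x0 * (p.B * p.c ^ (p.x1 + 2) * (p.c ^ 2 * p.B ^ 2 * p.q))
        = (((p.c : ℝ) ^ (p.kT + 5)) * (p.c : ℝ) ^ (p.kT + 5)) * (p.B : ℝ) ^ 3 * p.q := by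
          have e1 : p.x0 = p.kT + 1 := rfl
          have e2 : p.x1 + 2 = p.kT + 7 := rfl
          rw [e1, e2]; ring
      _ ≤ ((p.B : ℝ) * p.B) * (p.B : ℝ) ^ 3 * p.q := by gcongr
      _ = (p.B : ℝ) ^ 5 * p.q := by ring
      _ ≤ p.rho * p.q := by gcongr
      _ = D := rho_q p
  have t4 : 2 * p.B * D / p.c + 2 * D ≤ ((p.B : ℝ) - 1) * D := by
    have h1 : 2 * (p.B : ℝ) * D / p.c ≤ p.B * D / 2 := by
      rw [div_le_div_iff₀ hc (by norm_num)]
      have : 0 ≤ (p.B : ℝ) * D := by positivity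
      nlinarith
    have h2 : (6 : ℝ) ≤ p.B := by
      have := B_ge_pow p 1 (by norm_num)
      rw [pow_one] at this
      linarith
    nlinarith
  have hfin : ((p.c ^ p.x0 * (p.C * (p.B * p.q / p.c ^ p.x1 + 1) +
      p.B * p.c ^ (p.x1 + 2) * (p.c ^ 2 * p.B ^ 2 * p.q)) : ℕ) : ℝ) ≤ (p.k : ℝ) := by
    push_cast
    calc (p.c : ℝ) ^ p.x0 * (p.C * (((p.B * p.q / p.c ^ p.x1 : ℕ) : ℝ) + 1) +
          p.B * p.c ^ (p.x1 + 2) * (p.c ^ 2 * p.B ^ 2 * p.q))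
        ≤ (p.c : ℝ) ^ p.x0 * (p.C * (p.B * p.q / (p.c : ℝ) ^ p.x1 + 1) +
          p.B * p.c ^ (p.x1 + 2) * (p.c ^ 2 * p.B ^ 2 * p.q)) := by gcongr
      _ = (p.c : ℝ) ^ p.x0 * (p.C * (p.B * p.q / (p.c : ℝ) ^ p.x1)) +
          (p.c : ℝ) ^ p.x0 * (p.C * 1) +
          (p.c : ℝ) ^ p.x0 * (p.B * p.c ^ (p.x1 + 2) * (p.c ^ 2 * p.B ^ 2 * p.q)) := by ring
      _ ≤ 2 * p.B * D / p.c + D + D := by gcongr
      _ ≤ (p.B - 1) * D := by linarith
      _ ≤ p.k := hk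
  exact_mod_cast hfin

/-! ### the theorem -/

/-- the bad event of one copy -/
def RG2_bad {P O A V : Type} [Fintype P] [DecidableEq P] [Fintype O] [DecidableEq O]
    [Fintype A] [DecidableEq A] [AddCommGroup A] {q : ℕ} (H : Host P O q) (v : O → A)
    (T : SimpleGraph V) (W : Finset (P × A)) (Y : ℕ) (φ : P → V) : Prop :=
  ∃ S ⊆ W, FInd H v T φ S ∧ Y ≤ S.card

theorem RG2 (hCT2 : CT2_stmt) (hRG1 : RG1_stmt) : RG2_stmt := by
  intro p P O A V _ _ _ _ _ _ _ _ _ H v T MM v0 hA hT h1 h6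
  obtain ⟨WW, hWW1, hWW2, hWW3⟩ := hCT2 p P O A H v hA h6
  set Om' := Fintype.piFinset (fun _ : Fin p.C => Psi p H v0) with hOm
  have hOmc : Om'.card = (Psi p H v0).card ^ p.C := by
    rw [hOm, Fintype.card_piFinset]; simp
  set Y1 := p.c ^ 2 * p.B ^ 2 * p.q with hY1
  set m1 := p.B * p.q / p.c ^ p.x1 + 1 with hm1
  set b1 := p.B * p.c ^ (p.x1 + 2) with hb1
  set k1 := p.c ^ 2 * p.B * p.q / 16 with hk1
  set k2 := m1 / (16 * p.B) with hk2
  -- one copy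
  have hone1 : ∀ W ∈ WW, ((Psi p H v0).filter (RG2_bad H v T W Y1)).card * 2 ^ k1 ≤ (Psi p H v0).card := by
    intro W hW
    refine le_trans (le_of_eq ?_)
      (hRG1 p P O A V H v T MM v0 hA hT h1 W (hWW2 W hW).1 (hWW2 W hW).2 Y1 k1 ?_ ?_ ?_)
    · congr!
    · exact RG2_Y1' p
    · exact RG2_Y1 p
    · calc 16 * p.B * k1 = p.B * (16 * (p.c ^ 2 * p.B * p.q / 16)) := by rw [hk1]; ring
        _ ≤ p.B * (p.c ^ 2 * p.B * p.q) := Nat.mul_le_mul_left _ (Nat.mul_div_le _ _)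
        _ = Y1 := by rw [hY1]; ring
  have hone2 : ∀ W ∈ WW, ((Psi p H v0).filter (RG2_bad H v T W m1)).card * 2 ^ k2 ≤ (Psi p H v0).card := by
    intro W hW
    refine le_trans (le_of_eq ?_)
      (hRG1 p P O A V H v T MM v0 hA hT h1 W (hWW2 W hW).1 (hWW2 W hW).2 m1 k2 ?_ ?_ ?_)
    · congr!
    · exact (Nat.lt_mul_div_succ _ (pow_pos (c_pos p) _)).le
    · exact RG2_m1 p
    · exact Nat.mul_div_le _ _
  -- the two bad events
  have hE1 : (Om'.filter (fun φ => ∃ W ∈ WW, ∃ j, RG2_bad H v T W Y1 (φ j))).card * 2 ^ (5 * p.Lam) ≤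
      Om'.card := by
    refine ub Om' WW (fun W φ => ∃ j, RG2_bad H v T W Y1 (φ j)) (6 * p.Lam * p.fH) (5 * p.Lam) hWW1 ?_
    intro W hW
    have h := prod_one (Psi p H v0) p.C (2 ^ k1) (fun _ => RG2_bad H v T W Y1) (fun _ => hone1 W hW)
    have h2 : (Om'.filter (fun φ => ∃ j, RG2_bad H v T W Y1 (φ j))).card * 2 ^ k1 ≤ 2 ^ p.Lam * Om'.card := by
      rw [hOmc]
      refine le_trans (le_of_eq ?_) (h.trans (Nat.mul_le_mul_right _ (RG2_C_le p)))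
      congr!
    have h3 : 2 ^ p.Lam * ((Om'.filter (fun φ => ∃ j, RG2_bad H v T W Y1 (φ j))).card *
        2 ^ (6 * p.Lam * p.fH + 5 * p.Lam)) ≤ 2 ^ p.Lam * Om'.card := by
      calc 2 ^ p.Lam * ((Om'.filter (fun φ => ∃ j, RG2_bad H v T W Y1 (φ j))).card *
            2 ^ (6 * p.Lam * p.fH + 5 * p.Lam))
          = (Om'.filter (fun φ => ∃ j, RG2_bad H v T W Y1 (φ j))).card *
            2 ^ (6 * p.Lam * p.fH + 6 * p.Lam) := by
            rw [show 6 * p.Lam * p.fH + 6 * p.Lam = p.Lam + (6 * p.Lam * p.fH + 5 * p.Lam) by ring,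
              pow_add 2 p.Lam]
            ring
        _ ≤ (Om'.filter (fun φ => ∃ j, RG2_bad H v T W Y1 (φ j))).card * 2 ^ k1 :=
            Nat.mul_le_mul_left _ (Nat.pow_le_pow_right (by norm_num) (RG2_k1 p))
        _ ≤ _ := h2
    exact Nat.le_of_mul_le_mul_left h3 (by positivity)
  have hE2 : (Om'.filter (fun φ => ∃ W ∈ WW, b1 ≤ ((Finset.univ : Finset (Fin p.C)).filter
      (fun j => RG2_bad H v T W m1 (φ j))).card)).card * 2 ^ (5 * p.Lam) ≤ Om'.card := by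
    refine ub Om' WW (fun W φ => b1 ≤ ((Finset.univ : Finset (Fin p.C)).filter
      (fun j => RG2_bad H v T W m1 (φ j))).card) (6 * p.Lam * p.fH) (5 * p.Lam) hWW1 ?_
    intro W hW
    have h := prod_bad (Psi p H v0) p.C b1 (2 ^ k2) (fun _ => RG2_bad H v T W m1) (fun _ => hone2 W hW)
    have hch : p.C.choose b1 ≤ 2 ^ (p.Lam * b1) := by
      calc p.C.choose b1 ≤ p.C ^ b1 := Nat.choose_le_pow _ _
        _ ≤ (2 ^ p.Lam) ^ b1 := Nat.pow_le_pow_left (RG2_C_le p) _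
        _ = _ := by rw [← pow_mul]
    set F := Om'.filter (fun φ => b1 ≤ ((Finset.univ : Finset (Fin p.C)).filter
      (fun j => RG2_bad H v T W m1 (φ j))).card) with hF
    have h2 : F.card * 2 ^ (k2 * b1) ≤ 2 ^ (p.Lam * b1) * Om'.card := by
      rw [hOmc, pow_mul]
      refine le_trans (le_of_eq ?_) (h.trans (Nat.mul_le_mul_right _ hch))
      congr!
    have h3 : 2 ^ (p.Lam * b1) * (F.card * 2 ^ (6 * p.Lam * p.fH + 5 * p.Lam)) ≤
        2 ^ (p.Lam * b1) * Om'.card := by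
      calc 2 ^ (p.Lam * b1) * (F.card * 2 ^ (6 * p.Lam * p.fH + 5 * p.Lam))
          = F.card * 2 ^ (p.Lam * b1 + (6 * p.Lam * p.fH + 5 * p.Lam)) := by
            rw [pow_add 2 (p.Lam * b1)]
            ring
        _ ≤ F.card * 2 ^ (k2 * b1) :=
            Nat.mul_le_mul_left _ (Nat.pow_le_pow_right (by norm_num) (RG2_k2 p))
        _ ≤ _ := h2
    exact Nat.le_of_mul_le_mul_left h3 (by positivity)
  -- the deterministic part
  have hdet : Om'.filter (fun φ => ¬ Rough p H v T φ) ⊆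
      Om'.filter (fun φ => ∃ W ∈ WW, ∃ j, RG2_bad H v T W Y1 (φ j)) ∪
      Om'.filter (fun φ => ∃ W ∈ WW, b1 ≤ ((Finset.univ : Finset (Fin p.C)).filter
        (fun j => RG2_bad H v T W m1 (φ j))).card) := by
    intro φ hφ
    have hφ1 := (Finset.mem_filter.mp hφ).1
    have hφ2 := (Finset.mem_filter.mp hφ).2
    by_contra hcon
    rw [Finset.mem_union, Finset.mem_filter, Finset.mem_filter, not_or, not_and, not_and] at hcon
    obtain ⟨hn1, hn2⟩ := hcon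
    have hn1 := hn1 hφ1
    have hn2 := hn2 hφ1
    apply hφ2
    intro S hS
    obtain ⟨c0, W, hW, hsub⟩ := hWW3 S hS.sub hS.cross
    refine ⟨c0, ?_⟩
    refine le_trans (Nat.mul_le_mul_left _ ?_) (RG2_fin p)
    have hlt : ∀ j ∈ Finset.univ.erase c0, (S j).card ≤ Y1 := by
      intro j hj
      by_contra hlt
      exact hn1 ⟨W, hW, j, S j, hsub j (Finset.ne_of_mem_erase hj), hS.own j, (not_le.mp hlt).le⟩
    have hb : ((Finset.univ : Finset (Fin p.C)).filter (fun j => RG2_bad H v T W m1 (φ j))).card ≤ b1 := by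
      by_contra hlt
      exact hn2 ⟨W, hW, (not_le.mp hlt).le⟩
    have hpt : ∀ j ∈ Finset.univ.erase c0, (S j).card ≤
        m1 + (if RG2_bad H v T W m1 (φ j) then Y1 else 0) := by
      intro j hj
      by_cases hbj : RG2_bad H v T W m1 (φ j)
      · rw [if_pos hbj]
        exact le_trans (hlt j hj) (Nat.le_add_left _ _)
      · rw [if_neg hbj]
        by_contra hlt'
        apply hbj
        exact ⟨S j, hsub j (Finset.ne_of_mem_erase hj), hS.own j,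
          by simpa using (not_le.mp hlt').le⟩
    calc ∑ j ∈ Finset.univ.erase c0, (S j).card
        ≤ ∑ j ∈ Finset.univ.erase c0, (m1 + (if RG2_bad H v T W m1 (φ j) then Y1 else 0)) :=
          Finset.sum_le_sum hpt
      _ ≤ ∑ j : Fin p.C, (m1 + (if RG2_bad H v T W m1 (φ j) then Y1 else 0)) :=
          Finset.sum_le_sum_of_subset (Finset.erase_subset _ _)
      _ = p.C * m1 + ((Finset.univ : Finset (Fin p.C)).filter
          (fun j => RG2_bad H v T W m1 (φ j))).card * Y1 := by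
          rw [Finset.sum_add_distrib, Finset.sum_const, ← Finset.sum_filter, Finset.sum_const]
          simp
      _ ≤ p.C * m1 + b1 * Y1 := Nat.add_le_add_left (Nat.mul_le_mul_right _ hb) _
  -- conclusion
  have hcard := (Finset.card_le_card hdet).trans (Finset.card_union_le _ _)
  rw [← hOmc]
  set F0 := (Om'.filter (fun φ => ¬ Rough p H v T φ)).card
  set F1 := (Om'.filter (fun φ => ∃ W ∈ WW, ∃ j, RG2_bad H v T W Y1 (φ j))).card
  set F2 := (Om'.filter (fun φ => ∃ W ∈ WW, b1 ≤ ((Finset.univ : Finset (Fin p.C)).filter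
        (fun j => RG2_bad H v T W m1 (φ j))).card)).card
  have h2L : 2 ≤ 2 ^ p.Lam := by
    calc 2 = 2 ^ 1 := rfl
      _ ≤ 2 ^ p.Lam := Nat.pow_le_pow_right (by norm_num) p.hLam
  have h5 : 2 ^ (5 * p.Lam) = 2 ^ (4 * p.Lam) * 2 ^ p.Lam := by rw [← pow_add]; congr 1; ring
  have hfin : 2 * (F0 * 2 ^ (4 * p.Lam)) ≤ 2 * Om'.card := by
    calc 2 * (F0 * 2 ^ (4 * p.Lam)) ≤ 2 ^ p.Lam * (F0 * 2 ^ (4 * p.Lam)) :=
          Nat.mul_le_mul_right _ h2L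
      _ = F0 * 2 ^ (5 * p.Lam) := by rw [h5]; ring
      _ ≤ (F1 + F2) * 2 ^ (5 * p.Lam) := Nat.mul_le_mul_right _ hcard
      _ = F1 * 2 ^ (5 * p.Lam) + F2 * 2 ^ (5 * p.Lam) := by ring
      _ ≤ Om'.card + Om'.card := Nat.add_le_add hE1 hE2
      _ = _ := by ring
  exact Nat.le_of_mul_le_mul_left hfin (by norm_num)

end Pool.Agent.helper24.TG
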